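import Pool.Agent.H20.PT.Ctl

/-!
# Project PT: proof of the control lemma `S_CTL`
-/

set_option autoImplicit false

open Filter Set Metric Topology
open Pool.Agent.H718R2.G

namespace Pool.Agent.H3.PT

open Pool.Agent.H20.PT

/-- The rank one operator `x ↦ (⟨U, x⟩ / ‖U‖²) a`. -/
noncomputable def ro {d : ℕ} (U a : V d) : V d →L[ℝ] V d :=
  (innerSL ℝ ((‖U‖ ^ 2)⁻¹ • U)).smulRight a

theorem ro_apply {d : ℕ} (U a : V d) (hU : U ≠ 0) : ro U a U = a := by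
  have h : ‖U‖ ≠ 0 := norm_ne_zero_iff.2 hU
  simp only [ro, ContinuousLinearMap.smulRight_apply, innerSL_apply_apply, inner_smul_left,
    real_inner_self_eq_norm_sq]
  simp only [conj_trivial]
  rw [inv_mul_cancel₀ (pow_ne_zero 2 h), one_smul]

theorem ro_norm {d : ℕ} (U a : V d) (hU : U ≠ 0) : ‖ro U a‖ ≤ ‖a‖ / ‖U‖ := by
  have h : ‖U‖ ≠ 0 := norm_ne_zero_iff.2 hU
  unfold ro
  rw [ContinuousLinearMap.norm_smulRight_apply, innerSL_apply_norm, norm_smul, norm_inv, norm_pow,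
    norm_norm]
  apply le_of_eq
  field_simp

/-- One step. -/
theorem step {d : ℕ} {L δ κ₀ : ℝ} (hL : 1 ≤ L) (hδ : 0 < δ) (hδ' : δ ≤ 1 / 2) (hκ : 0 < κ₀)
    (hκδ : κ₀ ≤ δ) {h : ℝ} (hh : h = κ₀ / (120 * L ^ 3)) {ξ y ξ' v v' : V d} {F : V d → V d} {D : V d → (V d ≃L[ℝ] V d)}
    (hξ : ‖ξ‖ ≤ 1) (hF : LMap L δ ξ y F D) (hv : v ≠ 0)
    (hy : ‖y - ξ'‖ ≤ h) (hv'' : ‖D ξ v - v'‖ ≤ h * ‖v'‖)
    {Q U : V d} (hQ : ‖Q - ξ‖ ≤ 21 * L ^ 2 * h)
    (hU : ‖U - v‖ ≤ 21 * L ^ 2 * h * ‖v‖) :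
    ∃ w₀ : Kp d, ‖w₀‖ ≤ κ₀ ∧ F (kick w₀ Q) = ξ' ∧ D (kick w₀ Q) (U + w₀.2 U) = v' ∧
      ∀ w : Kp d, ‖w - w₀‖ ≤ h →
        ‖Q‖ < 2 ∧ ‖kick w Q - ξ‖ < δ ∧
        ‖F (kick w Q) - ξ'‖ ≤ 21 * L ^ 2 * h ∧
        ‖D (kick w Q) (U + w.2 U) - v'‖ ≤ 21 * L ^ 2 * h * ‖v'‖ := by
  have hL0 : 0 < L := by linarith
  have hL3 : 0 < L ^ 3 := by positivity
  have hh0 : 0 < h := by rw [hh]; positivity
  have hκh : κ₀ = 120 * (L ^ 3 * h) := by rw [hh]; field_simp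
  have hL3h : L ^ 3 * h ≤ 1 / 240 := by linarith
  have hL12 : L ≤ L ^ 2 := by nlinarith
  have hL23 : L ^ 2 ≤ L ^ 3 := by
    have : L ^ 3 = L ^ 2 * L := by ring
    rw [this]; nlinarith [sq_nonneg L]
  have e1 : L * h ≤ L ^ 2 * h := by gcongr
  have e2 : L ^ 2 * h ≤ L ^ 3 * h := by gcongr
  have e0 : h ≤ L * h := by nlinarith
  have hs : 21 * L ^ 2 * h ≤ 21 / 240 := by nlinarith
  have hvp : 0 < ‖v‖ := norm_pos_iff.2 hv
  have hξδ : ‖ξ - ξ‖ < δ := by simpa using hδ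
  -- sizes of v and v'
  have a1 : ‖D ξ v‖ ≤ L * ‖v‖ :=
    ((D ξ : V d →L[ℝ] V d).le_opNorm v).trans (by gcongr; exact hF.up ξ hξδ)
  have a2 : ‖v‖ ≤ L * ‖D ξ v‖ := by
    have := ((D ξ).symm : V d →L[ℝ] V d).le_opNorm (D ξ v)
    simp only [ContinuousLinearEquiv.coe_coe, ContinuousLinearEquiv.symm_apply_apply] at this
    exact this.trans (by gcongr; exact hF.low ξ hξδ)
  have a3 : ‖v'‖ ≤ 2 * L * ‖v‖ := by
    have : ‖v'‖ ≤ ‖D ξ v‖ + ‖D ξ v - v'‖ := by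
      have := norm_sub_le (D ξ v) (D ξ v - v')
      simpa using this
    nlinarith [norm_nonneg v', norm_nonneg v]
  have a4 : ‖v‖ ≤ 2 * L * ‖v'‖ := by
    have h1 : ‖D ξ v‖ ≤ ‖v'‖ + ‖D ξ v - v'‖ := by
      have := norm_add_le v' (D ξ v - v')
      simpa using this
    have h2 : ‖D ξ v‖ ≤ 2 * ‖v'‖ := by nlinarith [norm_nonneg v']
    calc ‖v‖ ≤ L * ‖D ξ v‖ := a2
      _ ≤ L * (2 * ‖v'‖) := by gcongr
      _ = _ := by ring
  -- the point ζ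
  obtain ⟨ζ, hζ1, hζ2⟩ := hF.inv ξ' (by
    rw [norm_sub_rev]
    refine hy.trans_lt ?_
    rw [lt_div_iff₀ hL0]
    nlinarith)
  rw [norm_sub_rev ξ' y] at hζ1
  have hζ : ‖ζ - ξ‖ ≤ L * h := hζ1.trans (by gcongr)
  have hζδ : ‖ζ - ξ‖ < δ := by nlinarith
  -- the vector u
  set u : V d := (D ζ).symm v' with hu
  have hDu : D ζ u = v' := by simp [hu]
  have b1 : ‖u - v‖ ≤ L * (h * ‖v'‖ + L * (L * h) * ‖v‖) := by
    have h1 : (D ζ).symm (v' - D ζ v) = u - v := by simp [hu]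
    have h2 : v' - D ζ v = (v' - D ξ v) + ((D ξ : V d →L[ℝ] V d) - (D ζ : V d →L[ℝ] V d)) v := by
      simp
    have h3 : ‖v' - D ζ v‖ ≤ h * ‖v'‖ + L * (L * h) * ‖v‖ := by
      rw [h2]
      refine (norm_add_le _ _).trans (add_le_add ?_ ?_)
      · rw [norm_sub_rev]; exact hv''
      · refine (ContinuousLinearMap.le_opNorm _ _).trans ?_
        gcongr
        refine (hF.lip ξ ζ hξδ hζδ).trans ?_
        gcongr
        rw [norm_sub_rev]; exact hζ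
    rw [← h1]
    have h4 := ((D ζ).symm : V d →L[ℝ] V d).le_opNorm (v' - D ζ v)
    refine h4.trans ?_
    exact mul_le_mul (hF.low ζ hζδ) h3 (norm_nonneg _) hL0.le
  have b2 : ‖u - v‖ ≤ 3 * (L ^ 3 * h) * ‖v‖ := by
    refine b1.trans ?_
    have : L * (h * ‖v'‖ + L * (L * h) * ‖v‖) ≤ L * (h * (2 * L * ‖v‖) + L * (L * h) * ‖v‖) := by
      gcongr
    refine this.trans ?_
    have : L * (h * (2 * L * ‖v‖) + L * (L * h) * ‖v‖) = (2 * (L ^ 2 * h) + L ^ 3 * h) * ‖v‖ := by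
      ring
    rw [this]
    gcongr
    linarith
  -- sizes of U
  have c1 : ‖U - v‖ ≤ 21 / 240 * ‖v‖ := hU.trans (by gcongr)
  have c2 : ‖U‖ ≤ 5 / 4 * ‖v‖ := by
    have := norm_add_le v (U - v)
    rw [add_sub_cancel] at this
    linarith
  have c3 : 3 / 4 * ‖v‖ ≤ ‖U‖ := by
    have := norm_sub_le U (U - v)
    rw [sub_sub_cancel] at this
    linarith
  have hU0 : 0 < ‖U‖ := by linarith
  have hUn : U ≠ 0 := norm_pos_iff.1 hU0
  have c4 : ‖u - U‖ ≤ 24 * (L ^ 3 * h) * ‖v‖ := by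
    have h1 : u - U = (u - v) - (U - v) := by abel
    rw [h1]
    refine (norm_sub_le _ _).trans ?_
    have h2 : 21 * L ^ 2 * h * ‖v‖ ≤ 21 * (L ^ 3 * h) * ‖v‖ :=
      mul_le_mul_of_nonneg_right (by linarith) (norm_nonneg v)
    linarith
  -- the kick
  set B : V d →L[ℝ] V d := ro U (u - U) with hB
  have hBU : B U = u - U := ro_apply U _ hUn
  have hBn : ‖B‖ ≤ 32 * (L ^ 3 * h) := by
    refine (ro_norm U (u - U) hUn).trans ?_
    rw [div_le_iff₀ hU0]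
    refine c4.trans ?_
    have : 24 * (L ^ 3 * h) * ‖v‖ = 32 * (L ^ 3 * h) * (3 / 4 * ‖v‖) := by ring
    rw [this]
    gcongr
  have hQn : ‖Q‖ ≤ 1 + 21 / 240 := by
    have := norm_add_le ξ (Q - ξ)
    rw [add_sub_cancel] at this
    linarith
  set w₀ : Kp d := (ζ - Q - B Q, B) with hw₀
  have hk : kick w₀ Q = ζ := by
    simp only [kick, hw₀]
    abel
  have hbn : ‖ζ - Q - B Q‖ ≤ 60 * (L ^ 3 * h) := by
    have h1 : ζ - Q - B Q = (ζ - ξ) - (Q - ξ) - B Q := by abel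
    rw [h1]
    have h2 : ‖B Q‖ ≤ 32 * (L ^ 3 * h) * (1 + 21 / 240) :=
      (B.le_opNorm Q).trans (mul_le_mul hBn hQn (norm_nonneg _) (by positivity))
    have h3 := norm_sub_le ((ζ - ξ) - (Q - ξ)) (B Q)
    have h4 := norm_sub_le (ζ - ξ) (Q - ξ)
    nlinarith
  have hw0n : ‖w₀‖ ≤ κ₀ := by
    rw [hw₀, Prod.norm_def]
    refine max_le ?_ ?_
    · dsimp only
      rw [hκh]; nlinarith
    · dsimp only
      rw [hκh]; nlinarith
  refine ⟨w₀, hw0n, ?_, ?_, ?_⟩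
  · rw [hk, hζ2]
  · rw [hk]
    have : U + w₀.2 U = u := by
      show U + B U = u
      rw [hBU]; abel
    rw [this, hDu]
  · intro w hw
    have d1 : ‖w.1 - w₀.1‖ ≤ h := (norm_fst_le (w - w₀)).trans hw
    have d2 : ‖w.2 - w₀.2‖ ≤ h := (norm_snd_le (w - w₀)).trans hw
    have d3 : ‖kick w Q - ζ‖ ≤ 3 * h := by
      have h1 : kick w Q - ζ = (w.1 - w₀.1) + (w.2 - w₀.2) Q := by
        rw [← hk]
        simp only [kick, sub_apply]
        abel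
      rw [h1]
      refine (norm_add_le _ _).trans ?_
      have h2 : ‖(w.2 - w₀.2) Q‖ ≤ h * (1 + 21 / 240) :=
        ((w.2 - w₀.2).le_opNorm Q).trans (mul_le_mul d2 hQn (norm_nonneg _) hh0.le)
      linarith
    have d4 : ‖kick w Q - ξ‖ < δ := by
      have h1 : kick w Q - ξ = (kick w Q - ζ) + (ζ - ξ) := by abel
      rw [h1]
      refine (norm_add_le _ _).trans_lt ?_
      nlinarith
    have d5 : ‖F (kick w Q) - ξ'‖ ≤ L * (3 * h) := by
      rw [← hζ2]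
      have hconv : Convex ℝ (ball ξ δ) := convex_ball ξ δ
      have := hconv.norm_image_sub_le_of_norm_hasFDerivWithin_le (f := F)
        (f' := fun z => (D z : V d →L[ℝ] V d)) (C := L)
        (fun z hz => (hF.der z (by simpa [dist_eq_norm] using hz)).hasFDerivWithinAt)
        (fun z hz => hF.up z (by simpa [dist_eq_norm] using hz))
        (x := ζ) (y := kick w Q) (by simpa [dist_eq_norm] using hζδ)
        (by simpa [dist_eq_norm] using d4)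
      exact this.trans (by gcongr)
    refine ⟨by linarith, d4, d5.trans ?_, ?_⟩
    · nlinarith
    · have hw2 : ‖w.2‖ ≤ 1 := by
        have h1 : ‖w.2‖ ≤ ‖w₀.2‖ + ‖w.2 - w₀.2‖ := by
          have := norm_add_le w₀.2 (w.2 - w₀.2)
          rwa [add_sub_cancel] at this
        have h2 : ‖w₀.2‖ ≤ 32 * (L ^ 3 * h) := hBn
        nlinarith
      have h0 : ‖U + w.2 U‖ ≤ 2 * ‖U‖ := by
        refine (norm_add_le _ _).trans ?_
        have := w.2.le_opNorm U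
        nlinarith [norm_nonneg U]
      have h1 : D (kick w Q) (U + w.2 U) - v'
          = ((D (kick w Q) : V d →L[ℝ] V d) - (D ζ : V d →L[ℝ] V d)) (U + w.2 U)
            + (D ζ : V d →L[ℝ] V d) ((w.2 - w₀.2) U) := by
        have h2 : v' = D ζ (U + w₀.2 U) := by
          have : U + w₀.2 U = u := by
            show U + B U = u
            rw [hBU]; abel
          rw [this, hDu]
        rw [h2]
        simp only [sub_apply, ContinuousLinearEquiv.coe_coe, map_add, map_sub]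
        abel
      rw [h1]
      have h3 : ‖((D (kick w Q) : V d →L[ℝ] V d) - (D ζ : V d →L[ℝ] V d)) (U + w.2 U)‖
          ≤ L * (3 * h) * (2 * ‖U‖) := by
        refine (ContinuousLinearMap.le_opNorm _ _).trans ?_
        refine mul_le_mul ((hF.lip _ _ d4 hζδ).trans (by gcongr)) h0 (norm_nonneg _) (by positivity)
      have h4 : ‖(D ζ : V d →L[ℝ] V d) ((w.2 - w₀.2) U)‖ ≤ L * (h * ‖U‖) := by
        refine (ContinuousLinearMap.le_opNorm _ _).trans ?_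
        refine mul_le_mul (hF.up ζ hζδ) ?_ (norm_nonneg _) hL0.le
        exact ((w.2 - w₀.2).le_opNorm U).trans (by gcongr)
      refine (norm_add_le _ _).trans ((add_le_add h3 h4).trans ?_)
      have h5 : L * (3 * h) * (2 * ‖U‖) + L * (h * ‖U‖) = 7 * (L * h) * ‖U‖ := by ring
      rw [h5]
      have h6 : ‖U‖ ≤ 5 / 4 * (2 * L * ‖v'‖) := c2.trans (by gcongr)
      calc 7 * (L * h) * ‖U‖ ≤ 7 * (L * h) * (5 / 4 * (2 * L * ‖v'‖)) := by gcongr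
        _ = 35 / 2 * L ^ 2 * h * ‖v'‖ := by ring
        _ ≤ 21 * L ^ 2 * h * ‖v'‖ := by gcongr; norm_num

theorem main : S_CTL := by
  intro d L δ κ₀ hL hδ hδ' hκ hκδ P hP n ξ y v F D hn hξ hF hξn hvn hv hy hvv
  have key : ∀ (j : ℕ) (st : V d × V d), ∃ w : Kp d, j < n →
      ‖st.1 - ξ j‖ ≤ 21 * L ^ 2 * (κ₀ / (120 * L ^ 3)) →
      ‖st.2 - v j‖ ≤ 21 * L ^ 2 * (κ₀ / (120 * L ^ 3)) * ‖v j‖ →
      ((j + 1 < n → w ∈ P) ∧ (j + 1 = n → ‖w‖ ≤ κ₀) ∧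
      ‖st.1‖ < 2 ∧ ‖kick w st.1 - ξ j‖ < δ ∧
      ‖F j (kick w st.1) - ξ (j + 1)‖ ≤ 21 * L ^ 2 * (κ₀ / (120 * L ^ 3)) ∧
      ‖D j (kick w st.1) (st.2 + w.2 st.2) - v (j + 1)‖
        ≤ 21 * L ^ 2 * (κ₀ / (120 * L ^ 3)) * ‖v (j + 1)‖ ∧
      (j + 1 = n → F j (kick w st.1) = ξ (j + 1) ∧
        D j (kick w st.1) (st.2 + w.2 st.2) = v (j + 1))) := by
    intro j st
    by_cases hj : j < n ∧ ‖st.1 - ξ j‖ ≤ 21 * L ^ 2 * (κ₀ / (120 * L ^ 3)) ∧
      ‖st.2 - v j‖ ≤ 21 * L ^ 2 * (κ₀ / (120 * L ^ 3)) * ‖v j‖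
    · obtain ⟨hj, h1, h2⟩ := hj
      obtain ⟨w₀, hw₀, hw1, hw2, hw3⟩ := step hL hδ hδ' hκ hκδ rfl (hξ j hj.le) (hF j hj) (hv j hj.le)
        (hy j hj) (hvv j hj) h1 h2
      have hL0 : 0 < L := by linarith
      by_cases hjn : j + 1 < n
      · obtain ⟨p, hp, hpw⟩ := hP w₀ hw₀
        obtain ⟨q1, q2, q3, q4⟩ := hw3 p hpw
        exact ⟨p, fun _ _ _ => ⟨fun _ => hp, fun h => absurd h hjn.ne, q1, q2, q3, q4,
          fun h => absurd h hjn.ne⟩⟩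
      · obtain ⟨q1, q2, q3, q4⟩ := hw3 w₀ (by simp only [sub_self, norm_zero]; positivity)
        exact ⟨w₀, fun _ _ _ => ⟨fun h => absurd h hjn, fun _ => hw₀, q1, q2, q3, q4,
          fun _ => ⟨hw1, hw2⟩⟩⟩
    · exact ⟨0, fun h h1 h2 => absurd ⟨h, h1, h2⟩ hj⟩
  choose W hW using key
  let st : ℕ → V d × V d := fun j => Nat.rec (ξ 0, v 0)
    (fun j st => (F j (kick (W j st) st.1), D j (kick (W j st) st.1) (st.2 + (W j st).2 st.2))) j
  have st0 : st 0 = (ξ 0, v 0) := rfl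
  have sts : ∀ j, st (j + 1) = (F j (kick (W j (st j)) (st j).1),
      D j (kick (W j (st j)) (st j).1) ((st j).2 + (W j (st j)).2 (st j).2)) := fun j => rfl
  have hL0 : 0 < L := by linarith
  have inv : ∀ j, j ≤ n → ‖(st j).1 - ξ j‖ ≤ 21 * L ^ 2 * (κ₀ / (120 * L ^ 3)) ∧
      ‖(st j).2 - v j‖ ≤ 21 * L ^ 2 * (κ₀ / (120 * L ^ 3)) * ‖v j‖ := by
    intro j
    induction j with
    | zero =>
      intro _
      rw [st0]
      simp only [sub_self, norm_zero]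
      constructor <;> positivity
    | succ j ih =>
      intro hj
      obtain ⟨h1, h2⟩ := ih (by omega)
      obtain ⟨-, -, -, -, q5, q6, -⟩ := hW j (st j) (by omega) h1 h2
      rw [sts]
      exact ⟨q5, q6⟩
  refine ⟨fun j => W j (st j), fun j => (st j).1, fun j => (st j).2, ?_, ?_, ?_, ?_, ?_, ?_, ?_⟩
  · intro j hj
    obtain ⟨h1, h2⟩ := inv j (by omega)
    exact (hW j (st j) (by omega) h1 h2).1 hj
  · intro j hj hjn
    obtain ⟨h1, h2⟩ := inv j (by omega)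
    exact (hW j (st j) (by omega) h1 h2).2.1 hjn
  · rfl
  · obtain ⟨m, rfl⟩ : ∃ m, n = m + 1 := ⟨n - 1, by omega⟩
    obtain ⟨h1, h2⟩ := inv m (by omega)
    have := (hW m (st m) (by omega) h1 h2).2.2.2.2.2.2 rfl
    show (st (m + 1)).1 = ξ 0
    rw [sts, ← hξn]
    exact this.1
  · rfl
  · obtain ⟨m, rfl⟩ : ∃ m, n = m + 1 := ⟨n - 1, by omega⟩
    obtain ⟨h1, h2⟩ := inv m (by omega)
    have := (hW m (st m) (by omega) h1 h2).2.2.2.2.2.2 rfl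
    show (st (m + 1)).2 = v 0
    rw [sts, ← hvn]
    exact this.2
  · intro j hj
    obtain ⟨h1, h2⟩ := inv j (by omega)
    obtain ⟨-, -, q3, q4, -, -, -⟩ := hW j (st j) hj h1 h2
    refine ⟨q3, q4, ?_, ?_⟩
    · show (st (j + 1)).1 = _
      rw [sts]
    · show (st (j + 1)).2 = _
      rw [sts]

end Pool.Agent.H3.PT
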