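import Pool.Agent.H20.PT.Hyp

/-!
# Project PT: a continuous norm on the tangent bundle, `S_NM`
-/

set_option autoImplicit false
set_option linter.unusedSectionVars false

open scoped Manifold ContDiff Topology
open Filter Set Metric

universe u v w

namespace Pool.Agent.H3.PT.NM

open Pool.Agent.H20.PT
open Pool.Agent.H718R2.G
open Pool.Agent.H721R2 (IsTangentNorm)

section

variable {d n : ℕ} {M : Type*} [TopologicalSpace M] [ChartedSpace (V d) M]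

/-- the derivative as a map into the vector space -/
noncomputable def dv (e : M → V n) (p : TangentBundle 𝓘(ℝ, V d) M) : V n :=
  (tangentMap 𝓘(ℝ, V d) 𝓘(ℝ, V n) e p).2

theorem dv_mk (e : M → V n) (x : M) (v : TangentSpace 𝓘(ℝ, V d) x) :
    dv (d := d) e ⟨x, v⟩ = mfderiv 𝓘(ℝ, V d) 𝓘(ℝ, V n) e x v := rfl

theorem dv_add (e : M → V n) (x : M) (v w : TangentSpace 𝓘(ℝ, V d) x) :
    dv (d := d) e ⟨x, v + w⟩ = dv (d := d) e ⟨x, v⟩ + dv (d := d) e ⟨x, w⟩ :=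
  map_add (mfderiv 𝓘(ℝ, V d) 𝓘(ℝ, V n) e x) v w

theorem dv_smul (e : M → V n) (x : M) (c : ℝ) (v : TangentSpace 𝓘(ℝ, V d) x) :
    dv (d := d) e ⟨x, c • v⟩ = c • dv (d := d) e ⟨x, v⟩ :=
  map_smul (mfderiv 𝓘(ℝ, V d) 𝓘(ℝ, V n) e x) c v

theorem dv_zero (e : M → V n) (x : M) : dv (d := d) e ⟨x, 0⟩ = 0 :=
  map_zero (mfderiv 𝓘(ℝ, V d) 𝓘(ℝ, V n) e x)

theorem dv_cont [IsManifold 𝓘(ℝ, V d) 1 M] (e : M → V n)
    (he : ContMDiff 𝓘(ℝ, V d) 𝓘(ℝ, V n) 1 e) : Continuous (dv (d := d) e) := by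
  have h1 : Continuous (tangentMap 𝓘(ℝ, V d) 𝓘(ℝ, V n) e) := he.continuous_tangentMap le_rfl
  have h2 := (tangentBundleModelSpaceHomeomorph 𝓘(ℝ, V n)).continuous
  have h3 := h2.comp h1
  exact continuous_snd.comp h3

end

theorem main : S_NM.{u} := by
  intro d M _ _ _ _ _ _
  obtain ⟨n, e, he, -, hinj⟩ := exists_embedding_euclidean_of_compact (I := 𝓡 d) (M := M)
  refine ⟨fun p => ‖dv (d := d) e p‖, ?_, ?_, ?_, ?_⟩
  · exact (dv_cont e (he.of_le (by simp))).norm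
  · intro x v hv
    refine norm_pos_iff.2 fun h => hv ?_
    apply hinj x
    have h0 : dv (d := d) e ⟨x, v⟩ = dv (d := d) e ⟨x, 0⟩ := by rw [h, dv_zero]
    exact h0
  · intro x c v
    show ‖dv (d := d) e ⟨x, c • v⟩‖ = |c| * ‖dv (d := d) e ⟨x, v⟩‖
    rw [dv_smul, norm_smul, Real.norm_eq_abs]
  · intro x v w
    show ‖dv (d := d) e ⟨x, v + w⟩‖ ≤ ‖dv (d := d) e ⟨x, v⟩‖ + ‖dv (d := d) e ⟨x, w⟩‖
    rw [dv_add]
    exact norm_add_le _ _

end Pool.Agent.H3.PT.NM
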